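import Pool.Agent.R976.Race

set_option autoImplicit false

open MeasureTheory ProbabilityTheory Set Filter Topology

namespace Pool.Agent.Results.MP_cbbafe_pr.ThreeExtrema

open Pool.Agent.R976.Race

/-- The pattern `TH`. -/
def TH : List Bool := [false, true]

/-- The pattern `TTHH`. -/
def TTHH : List Bool := [false, false, true, true]

lemma nb1 : NoBorder TH := by
  intro s hs hs2
  have : s = 1 := by simp only [TH, List.length_cons, List.length_nil] at hs2; omega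
  subst this
  exact ⟨⟨0, by simp [TH]⟩, by simp [TH], by simp [TH]⟩

lemma nb2 : NoBorder TTHH := by
  intro s hs hs2
  have h4 : s < 4 := by simpa [TTHH] using hs2
  interval_cases s
  · exact ⟨⟨1, by simp [TTHH]⟩, by simp [TTHH], by simp [TTHH]⟩
  · exact ⟨⟨0, by simp [TTHH]⟩, by simp [TTHH], by simp [TTHH]⟩
  · exact ⟨⟨0, by simp [TTHH]⟩, by simp [TTHH], by simp [TTHH]⟩

lemma wp1 (p : ℝ) : wp p TH = p * (1 - p) := by
  show ∏ i : Fin 2, wt p (TH.get i) = _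
  rw [Fin.prod_univ_two]
  simp [TH, wt]
  ring

lemma wp2 (p : ℝ) : wp p TTHH = (p * (1 - p)) ^ 2 := by
  show ∏ i : Fin 4, wt p (TTHH.get i) = _
  rw [Fin.prod_univ_four]
  simp [TTHH, wt]
  ring

/-- numerator and denominator of `W` as functions of `r = p (1 - p)` -/
noncomputable def num (r : ℝ) : ℝ := 1 - 3 / 2 * r ^ 2 + 3 * r ^ 3 + 1 / 2 * r ^ 7

noncomputable def den (r : ℝ) : ℝ := 1 + r - 5 * r ^ 2 + 5 * r ^ 3 + r ^ 7

/-- the telescoping certificate -/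
noncomputable def cert (r a0 a1 b0 b1 b2 b3 : ℝ) : ℝ :=
  (1/2 + 1/2 * r - 5/2 * r^2 + 7/2 * r^3 - 1/2 * r^4 - 1/2 * r^6 + 1/2 * r^7) * a0 * b0
  + (1/2 + r - 2 * r^2 + r^3 + r^4) * a0 * b1
  + (1/2 * r + 1/2 * r^2 - 3/2 * r^3 + 1/2 * r^5) * a0 * b2
  + (-r + 1/2 * r^3 - 1/2 * r^4 - 1/2 * r^5) * a0 * b3
  + (-1/2 - 1/2 * r + 3/2 * r^2 - r^3 + 1/2 * r^6) * a1 * b0
  + (-1/2 - 1/2 * r + 3/2 * r^2 - 1/2 * r^4) * a1 * b1
  + (1/2 * r - 1/2 * r^2 + r^3 + 1/2 * r^4) * a1 * b2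
  + (1 - 1/2 * r - 1/2 * r^3) * a1 * b3

lemma cert_step (r a0 a1 b0 b1 b2 b3 : ℝ) :
    den r * ((a0 - a1) * (b0 + b1) / 2) =
      cert r a0 a1 b0 b1 b2 b3 - cert r a1 (a1 - r * a0) b1 b2 b3 (b3 - r ^ 2 * b0) := by
  unfold cert den
  ring

lemma cert_ones (r : ℝ) : cert r 1 1 1 1 1 1 = num r := by
  unfold cert num
  ring

lemma den_pos {p : ℝ} (hp : p ∈ Ioo (0:ℝ) 1) : 0 < den (p * (1 - p)) := by
  have h1 : 0 < p * (1 - p) := mul_pos hp.1 (by linarith [hp.2])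
  have h2 : p * (1 - p) ≤ 1 / 4 := by nlinarith [sq_nonneg (p - 1 / 2)]
  set r := p * (1 - p)
  unfold den
  have h3 : 0 < r ^ 3 := by positivity
  have h7 : 0 < r ^ 7 := by positivity
  nlinarith

/-- The winning probability of `TH` against `TTHH` is a rational function of `p (1 - p)`. -/
theorem W_eq {p : ℝ} (hp : p ∈ Ioo (0:ℝ) 1) :
    W TH TTHH p = num (p * (1 - p)) / den (p * (1 - p)) := by
  set r := p * (1 - p) with hr
  set a := surv TH p with ha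
  set b := surv TTHH p with hb
  have hlen1 : TH.length = 2 := rfl
  have hlen2 : TTHH.length = 4 := rfl
  have ha0 : a 0 = 1 := surv_lt hp TH 0 (by simp [TH])
  have ha1 : a 1 = 1 := surv_lt hp TH 1 (by simp [TH])
  have hb0 : b 0 = 1 := surv_lt hp TTHH 0 (by simp [TTHH])
  have hb1 : b 1 = 1 := surv_lt hp TTHH 1 (by simp [TTHH])
  have hb2 : b 2 = 1 := surv_lt hp TTHH 2 (by simp [TTHH])
  have hb3 : b 3 = 1 := surv_lt hp TTHH 3 (by simp [TTHH])
  have har : ∀ n, a (n + 2) = a (n + 1) - r * a n := by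
    intro n
    have := surv_rec hp TH nb1 (by simp [TH]) n
    rw [wp1, hlen1] at this
    exact this
  have hbr : ∀ n, b (n + 4) = b (n + 3) - r ^ 2 * b n := by
    intro n
    have := surv_rec hp TTHH nb2 (by simp [TTHH]) n
    rw [wp2, hlen2] at this
    exact this
  have hD := den_pos hp
  rw [← hr] at hD
  let q : ℕ → ℝ := fun n => cert r (a n) (a (n + 1)) (b n) (b (n + 1)) (b (n + 2)) (b (n + 3))
  have hterm : ∀ n, (a n - a (n + 1)) * (b n + b (n + 1)) / 2 = q n / den r - q (n + 1) / den r := by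
    intro n
    rw [← sub_div, eq_div_iff hD.ne', mul_comm]
    have := cert_step r (a n) (a (n + 1)) (b n) (b (n + 1)) (b (n + 2)) (b (n + 3))
    rw [← har n, ← hbr n] at this
    exact this
  have hsum := hasSum_W hp TH TTHH nb1 (by simp [TH])
  have ht := hsum.tendsto_sum_nat
  have hpart : ∀ N, ∑ n ∈ Finset.range N, (a n - a (n + 1)) * (b n + b (n + 1)) / 2 =
      q 0 / den r - q N / den r := by
    intro N
    rw [Finset.sum_congr rfl fun n _ => hterm n]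
    exact Finset.sum_range_sub' (fun n => q n / den r) N
  have ha_t : Tendsto a atTop (𝓝 0) := surv_tendsto hp TH nb1 (by simp [TH])
  have hb_t : Tendsto b atTop (𝓝 0) := surv_tendsto hp TTHH nb2 (by simp [TTHH])
  have hs : ∀ k : ℕ, Tendsto (fun n => n + k) atTop atTop := fun k => tendsto_add_atTop_nat k
  have hq : Tendsto q atTop (𝓝 0) := by
    have h1 := ha_t
    have h2 := ha_t.comp (hs 1)
    have h3 := hb_t
    have h4 := hb_t.comp (hs 1)
    have h5 := hb_t.comp (hs 2)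
    have h6 := hb_t.comp (hs 3)
    have := (((((((((h1.const_mul (1/2 + 1/2 * r - 5/2 * r^2 + 7/2 * r^3 - 1/2 * r^4 - 1/2 * r^6 + 1/2 * r^7)).mul h3).add
      ((h1.const_mul (1/2 + r - 2 * r^2 + r^3 + r^4)).mul h4)).add
      ((h1.const_mul (1/2 * r + 1/2 * r^2 - 3/2 * r^3 + 1/2 * r^5)).mul h5)).add
      ((h1.const_mul (-r + 1/2 * r^3 - 1/2 * r^4 - 1/2 * r^5)).mul h6)).add
      ((h2.const_mul (-1/2 - 1/2 * r + 3/2 * r^2 - r^3 + 1/2 * r^6)).mul h3)).add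
      ((h2.const_mul (-1/2 - 1/2 * r + 3/2 * r^2 - 1/2 * r^4)).mul h4)).add
      ((h2.const_mul (1/2 * r - 1/2 * r^2 + r^3 + 1/2 * r^4)).mul h5)).add
      ((h2.const_mul (1 - 1/2 * r - 1/2 * r^3)).mul h6))
    simp only [mul_zero, add_zero] at this
    exact this
  have hlim : Tendsto (fun N => q 0 / den r - q N / den r) atTop (𝓝 (q 0 / den r - 0 / den r)) :=
    tendsto_const_nhds.sub (hq.div_const _)
  have hu := tendsto_nhds_unique ht (hlim.congr fun N => (hpart N).symm)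
  rw [hu, zero_div, sub_zero]
  congr 1
  show cert r (a 0) (a (0 + 1)) (b 0) (b (0 + 1)) (b (0 + 2)) (b (0 + 3)) = num r
  rw [zero_add, zero_add, zero_add, ha0, ha1, hb0, hb1, hb2, hb3, cert_ones]

lemma W_cont : ContinuousOn (W TH TTHH) (Ioo 0 1) := by
  have h : ContinuousOn (fun p : ℝ => num (p * (1 - p)) / den (p * (1 - p))) (Ioo 0 1) := by
    refine ContinuousOn.div ?_ ?_ fun p hp => (den_pos hp).ne'
    · unfold num; fun_prop
    · unfold den; fun_prop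
  exact h.congr fun p hp => W_eq hp

lemma exists_min {f : ℝ → ℝ} {a b c : ℝ} (h : ContinuousOn f (Icc a b)) (hac : a < c) (hcb : c < b)
    (h1 : f c < f a) (h2 : f c < f b) : ∃ x ∈ Ioo a b, IsLocalMin f x ∧ f x ≤ f c := by
  obtain ⟨x, hx, hmin⟩ := isCompact_Icc.exists_isMinOn ⟨c, hac.le, hcb.le⟩ h
  have hxc : f x ≤ f c := hmin ⟨hac.le, hcb.le⟩
  have hxa : x ≠ a := by rintro rfl; linarith
  have hxb : x ≠ b := by rintro rfl; linarith
  have hxI : x ∈ Ioo a b := ⟨lt_of_le_of_ne hx.1 hxa.symm, lt_of_le_of_ne hx.2 hxb⟩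
  exact ⟨x, hxI, hmin.isLocalMin (Icc_mem_nhds hxI.1 hxI.2), hxc⟩

/-- The winning probability of the pattern `TH` against the pattern `TTHH` has (at least) three local
extrema in `(0, 1)`: a local minimum, a local maximum and a local minimum, in this order. -/
theorem result :
    ∃ T₁ T₂ : List Bool, T₁ ≠ [] ∧ T₂ ≠ [] ∧
      (∃ p ∈ Ioo (0:ℝ) 1, ∃ q ∈ Ioo (0:ℝ) 1, W T₁ T₂ p ≠ W T₁ T₂ q) ∧
      ∃ p₁ p₂ p₃ : ℝ, 0 < p₁ ∧ p₁ < p₂ ∧ p₂ < p₃ ∧ p₃ < 1 ∧
        IsLocalMin (W T₁ T₂) p₁ ∧ IsLocalMax (W T₁ T₂) p₂ ∧ IsLocalMin (W T₁ T₂) p₃ := by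
  have hv : ∀ p : ℝ, p ∈ Ioo (0:ℝ) 1 → W TH TTHH p = num (p * (1 - p)) / den (p * (1 - p)) :=
    fun p hp => W_eq hp
  have e1 := hv (1 / 20) ⟨by norm_num, by norm_num⟩
  have e2 := hv (1 / 5) ⟨by norm_num, by norm_num⟩
  have e3 := hv (1 / 2) ⟨by norm_num, by norm_num⟩
  have e4 := hv (4 / 5) ⟨by norm_num, by norm_num⟩
  have e5 := hv (19 / 20) ⟨by norm_num, by norm_num⟩
  have l21 : W TH TTHH (1 / 5) < W TH TTHH (1 / 20) := by
    rw [e1, e2]; norm_num [num, den]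
  have l23 : W TH TTHH (1 / 5) < W TH TTHH (1 / 2) := by
    rw [e2, e3]; norm_num [num, den]
  have l43 : W TH TTHH (4 / 5) < W TH TTHH (1 / 2) := by
    rw [e4, e3]; norm_num [num, den]
  have l45 : W TH TTHH (4 / 5) < W TH TTHH (19 / 20) := by
    rw [e4, e5]; norm_num [num, den]
  obtain ⟨p₁, h1, m1, v1⟩ := exists_min (W_cont.mono (show Icc (1/20:ℝ) (1/2) ⊆ Ioo 0 1 from
    fun x hx => ⟨by linarith [hx.1], by linarith [hx.2]⟩)) (c := 1 / 5) (by norm_num) (by norm_num)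
    l21 l23
  obtain ⟨p₃, h3, m3, v3⟩ := exists_min (W_cont.mono (show Icc (1/2:ℝ) (19/20) ⊆ Ioo 0 1 from
    fun x hx => ⟨by linarith [hx.1], by linarith [hx.2]⟩)) (c := 4 / 5) (by norm_num) (by norm_num)
    l43 l45
  obtain ⟨p₂, h2, m2, v2⟩ := exists_min (f := fun x => - W TH TTHH x) (a := p₁) (b := p₃) (c := 1 / 2)
    ((W_cont.mono (fun x hx => ⟨by linarith [hx.1, h1.1], by linarith [hx.2, h3.2]⟩)).neg)
    h1.2 h3.1 (by linarith) (by linarith)
  refine ⟨TH, TTHH, by simp [TH], by simp [TTHH], ⟨1 / 5, ⟨by norm_num, by norm_num⟩, 1 / 2,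
    ⟨by norm_num, by norm_num⟩, l23.ne⟩, p₁, p₂, p₃, by linarith [h1.1], h2.1, h2.2,
    by linarith [h3.2], m1, ?_, m3⟩
  have := m2.neg
  simpa using this

end Pool.Agent.Results.MP_cbbafe_pr.ThreeExtrema
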